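import Pool.Agent.H487.GP.Stm

set_option autoImplicit false

/-!
# Project GP (helper487), job GAD: the kernel of the increments is admissible, and its variance

Model: the file KAD of project GA (helper178).
-/

open Finset Complex Filter Topology Metric Set MeasureTheory

namespace Pool.Agent.H224.GP.GAD

open Pool.Agent.H487.GA Pool.Agent.H487.GP

noncomputable section

/-- the majorant -/
def gy (y ξ : ℝ) : ℝ := y / (1 + (y * ξ) ^ 2)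

theorem gy_pos {y : ℝ} (hy : 0 < y) (ξ : ℝ) : 0 < gy y ξ := by
  unfold gy
  positivity

theorem gy_eq (y ξ : ℝ) : gy y ξ = y * (1 + (y * ξ) ^ 2)⁻¹ := by
  unfold gy
  rw [div_eq_mul_inv]

theorem gy_integrable {y : ℝ} (hy : 0 < y) : IntegrableOn (gy y) (Ioi 0) := by
  have h : Integrable (fun ξ : ℝ => y * (1 + (y * ξ) ^ 2)⁻¹) :=
    (integrable_inv_one_add_sq.comp_mul_left' hy.ne').const_mul y
  refine h.integrableOn.congr_fun (fun ξ _ => (gy_eq y ξ).symm) measurableSet_Ioi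

theorem gy_integral {y : ℝ} (hy : 0 < y) : ∫ ξ in Ioi (0 : ℝ), gy y ξ = Real.pi / 2 := by
  simp_rw [gy_eq]
  rw [integral_const_mul]
  have h := integral_comp_mul_left_Ioi (fun x : ℝ => (1 + x ^ 2)⁻¹) 0 hy
  rw [h, mul_zero, integral_Ioi_inv_one_add_sq, Real.arctan_zero, smul_eq_mul, sub_zero,
    ← mul_assoc, mul_inv_cancel₀ hy.ne', one_mul]

/-- the main term -/
def gg (v y ξ : ℝ) : ℂ :=
  ((Real.pi * Real.exp (-(y * ξ)) : ℝ) : ℂ) * ((1 - cexp (-(((v * y * ξ : ℝ) : ℂ) * I))) / (I * ξ))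

theorem nq (θ : ℝ) : ‖(1 : ℂ) - cexp (-((θ : ℂ) * I))‖ ^ 2 = 2 - 2 * Real.cos θ := by
  have e : cexp (-((θ : ℂ) * I)) = (Real.cos θ : ℂ) - (Real.sin θ : ℂ) * I := by
    rw [← neg_mul, Complex.exp_mul_I, Complex.cos_neg, Complex.sin_neg]
    push_cast
    ring
  rw [e, Complex.sq_norm, Complex.normSq_apply]
  simp only [Complex.sub_re, Complex.sub_im, Complex.one_re, Complex.one_im, Complex.mul_re,
    Complex.mul_im, Complex.ofReal_re, Complex.ofReal_im, Complex.I_re, Complex.I_im]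
  nlinarith [Real.sin_sq_add_cos_sq θ]

theorem gg_sq (v y ξ : ℝ) :
    ‖gg v y ξ‖ ^ 2 = (Real.pi * Real.exp (-(y * ξ))) ^ 2 * (2 - 2 * Real.cos (v * y * ξ)) / ξ ^ 2 := by
  unfold gg
  rw [norm_mul, norm_div, norm_mul, Complex.norm_I, one_mul, Complex.norm_real, Complex.norm_real,
    mul_pow, div_pow, nq, Real.norm_eq_abs, Real.norm_eq_abs, sq_abs, sq_abs]
  ring

theorem gg_le (v : ℝ) {y ξ : ℝ} (hy : 0 < y) (hξ : 0 < ξ) :
    ‖gg v y ξ‖ ≤ Real.pi * |v| * y * Real.exp (-(y * ξ)) := by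
  have hpi := Real.pi_pos
  refine le_of_sq_le_sq ?_ (by positivity)
  rw [gg_sq v y ξ]
  have h1 := Real.one_sub_sq_div_two_le_cos (x := v * y * ξ)
  have h2 : 2 - 2 * Real.cos (v * y * ξ) ≤ (v * y * ξ) ^ 2 := by linarith
  rw [div_le_iff₀ (by positivity)]
  calc (Real.pi * Real.exp (-(y * ξ))) ^ 2 * (2 - 2 * Real.cos (v * y * ξ))
      ≤ (Real.pi * Real.exp (-(y * ξ))) ^ 2 * (v * y * ξ) ^ 2 :=
        mul_le_mul_of_nonneg_left h2 (sq_nonneg _)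
    _ = Real.pi ^ 2 * v ^ 2 * y ^ 2 * Real.exp (-(y * ξ)) ^ 2 * ξ ^ 2 := by ring
    _ = Real.pi ^ 2 * |v| ^ 2 * y ^ 2 * Real.exp (-(y * ξ)) ^ 2 * ξ ^ 2 := by rw [sq_abs]
    _ = (Real.pi * |v| * y * Real.exp (-(y * ξ))) ^ 2 * ξ ^ 2 := by ring

theorem gg_int (hF : S_FRU) (v : ℝ) {y : ℝ} (hy : 0 < y) :
    IntegrableOn (fun ξ : ℝ => ξ * ‖gg v y ξ‖ ^ 2) (Ioi 0) ∧
    ∫ ξ in Ioi (0 : ℝ), ξ * ‖gg v y ξ‖ ^ 2 = Real.pi ^ 2 * Real.log (1 + v ^ 2 / 4) := by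
  obtain ⟨f, hf⟩ : ∃ f : ℝ → ℝ, f = fun x : ℝ =>
    Real.exp (-(2 * x)) * (2 - 2 * Real.cos (v * x)) / x := ⟨_, rfl⟩
  obtain ⟨h1, h2⟩ := hF v
  rw [← hf] at h1 h2
  have e : ∀ ξ ∈ Ioi (0 : ℝ), ξ * ‖gg v y ξ‖ ^ 2 = Real.pi ^ 2 * y * f (y * ξ) := by
    intro ξ hξ
    have hξ' : (0 : ℝ) < ξ := hξ
    rw [gg_sq v y ξ, hf]
    simp only
    have e1 : Real.exp (-(2 * (y * ξ))) = Real.exp (-(y * ξ)) ^ 2 := by
      rw [← Real.exp_nat_mul]
      congr 1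
      push_cast
      ring
    have e2 : v * (y * ξ) = v * y * ξ := by ring
    rw [e1, e2]
    field_simp
  have h3 : IntegrableOn (fun ξ : ℝ => f (y * ξ)) (Ioi 0) := by
    rw [integrableOn_Ioi_comp_mul_left_iff f 0 hy, mul_zero]
    exact h1
  constructor
  · refine IntegrableOn.congr_fun (h3.const_mul (Real.pi ^ 2 * y)) (fun ξ hξ => ?_) measurableSet_Ioi
    exact (e ξ hξ).symm
  · rw [setIntegral_congr_fun measurableSet_Ioi e, integral_const_mul,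
      integral_comp_mul_left_Ioi f 0 hy, mul_zero, h2, smul_eq_mul]
    field_simp

/-- the bounds -/
structure Bd (F : ℝ → ℝ) (C v y : ℝ) : Prop where
  C0 : 0 < C
  y0 : 0 < y
  y2 : y ≤ 2
  b1 : ∀ ξ : ℝ, 0 < ξ → ‖FF F ξ‖ ≤ 2 * C * gy y ξ
  b2 : ∀ ξ : ℝ, 0 < ξ → ξ * ‖FF F ξ‖ ^ 2 ≤ 2 * C ^ 2 * gy y ξ
  b3 : ∀ ξ : ℝ, 0 < ξ → ‖FF F ξ‖ ^ 2 + 2 * ξ * ‖FF F ξ‖ * ‖deriv (FF F) ξ‖ ≤
    16 * C ^ 2 * Real.sqrt y * gy y ξ
  b4 : ∀ ξ : ℝ, 0 < ξ → |ξ * ‖FF F ξ‖ ^ 2 - ξ * ‖gg v y ξ‖ ^ 2| ≤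
    C * (C + 4 * |v|) * y ^ 2 * gy y ξ

theorem bd_of {F : ℝ → ℝ} {C v y : ℝ} (hC : 0 < C) (hy : 0 < y) (hy2 : y ≤ 2)
    (h : ∀ ξ : ℝ, 0 < ξ → ‖FF F ξ‖ ≤ C * y ∧ ‖FF F ξ‖ ≤ C / (y * ξ ^ 2) ∧
    ‖deriv (FF F) ξ‖ ≤ C * (y * Real.sqrt y) ∧ ‖deriv (FF F) ξ‖ ≤ C / ξ ^ 2 ∧
    ‖FF F ξ - gg v y ξ‖ ≤ C * y ^ 2 / (1 + ξ ^ 2)) :
    Bd F C v y := by
  have hsq : Real.sqrt y ^ 2 = y := Real.sq_sqrt hy.le
  have hs0 : 0 < Real.sqrt y := Real.sqrt_pos.2 hy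
  have hs2 : Real.sqrt y ≤ 2 := by
    rw [Real.sqrt_le_left (by norm_num)]
    linarith
  have b1 : ∀ ξ : ℝ, 0 < ξ → ‖FF (F) ξ‖ ≤ 2 * C * gy y ξ := by
    intro ξ hξ
    obtain ⟨h1, h2, -, -, -⟩ := h ξ hξ
    rw [le_div_iff₀ (by positivity)] at h2
    unfold gy
    rw [mul_div_assoc', le_div_iff₀ (by positivity)]
    have h3 : ‖FF (F) ξ‖ * (y * ξ) ^ 2 ≤ C * y := by
      have e : ‖FF (F) ξ‖ * (y * ξ) ^ 2 = y * (‖FF (F) ξ‖ * (y * ξ ^ 2)) := by ring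
      rw [e, mul_comm C]
      exact mul_le_mul_of_nonneg_left h2 hy.le
    nlinarith
  have hg1 : ∀ ξ : ℝ, gy y ξ ≤ y := by
    intro ξ
    unfold gy
    rw [div_le_iff₀ (by positivity)]
    nlinarith [sq_nonneg (y * ξ), mul_nonneg hy.le (sq_nonneg (y * ξ))]
  have hg2 : ∀ ξ : ℝ, 0 < ξ → 2 * (ξ * gy y ξ) ≤ 1 := by
    intro ξ hξ
    unfold gy
    rw [mul_div_assoc', mul_div_assoc', div_le_one (by positivity)]
    nlinarith [sq_nonneg (y * ξ - 1)]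
  refine ⟨hC, hy, hy2, b1, ?_, ?_, ?_⟩
  · intro ξ hξ
    have h1 := b1 ξ hξ
    have h0 : 0 ≤ ‖FF (F) ξ‖ := norm_nonneg _
    have hg := gy_pos hy ξ
    have h2 : ‖FF (F) ξ‖ ^ 2 ≤ (2 * C * gy y ξ) ^ 2 := pow_le_pow_left₀ h0 h1 2
    calc ξ * ‖FF (F) ξ‖ ^ 2 ≤ ξ * (2 * C * gy y ξ) ^ 2 := mul_le_mul_of_nonneg_left h2 hξ.le
      _ = 2 * C ^ 2 * gy y ξ * (2 * (ξ * gy y ξ)) := by ring
      _ ≤ 2 * C ^ 2 * gy y ξ * 1 := mul_le_mul_of_nonneg_left (hg2 ξ hξ) (by positivity)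
      _ = 2 * C ^ 2 * gy y ξ := mul_one _
  · intro ξ hξ
    have h1 := b1 ξ hξ
    obtain ⟨-, -, h3, h4, -⟩ := h ξ hξ
    have h0 : 0 ≤ ‖FF (F) ξ‖ := norm_nonneg _
    have hd0 : 0 ≤ ‖deriv (FF (F)) ξ‖ := norm_nonneg _
    have hg := gy_pos hy ξ
    -- `ξ ‖FF'‖ ≤ 2 C √y`
    have h5 : ξ * ‖deriv (FF (F)) ξ‖ ≤ 2 * C * Real.sqrt y := by
      refine le_of_sq_le_sq ?_ (by positivity)
      rw [le_div_iff₀ (by positivity)] at h4
      calc (ξ * ‖deriv (FF (F)) ξ‖) ^ 2 =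
          (‖deriv (FF (F)) ξ‖ * ξ ^ 2) * ‖deriv (FF (F)) ξ‖ := by ring
        _ ≤ C * (C * (y * Real.sqrt y)) := mul_le_mul h4 h3 hd0 hC.le
        _ ≤ C * (C * (y * 2)) := by
            refine mul_le_mul_of_nonneg_left ?_ hC.le
            refine mul_le_mul_of_nonneg_left ?_ hC.le
            exact mul_le_mul_of_nonneg_left hs2 hy.le
        _ ≤ (2 * C * Real.sqrt y) ^ 2 := by
            rw [mul_pow, hsq]
            nlinarith [mul_pos (mul_pos hC hC) hy]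
    have h6 : ‖FF (F) ξ‖ ^ 2 ≤ 8 * C ^ 2 * Real.sqrt y * gy y ξ := by
      calc ‖FF (F) ξ‖ ^ 2 ≤ (2 * C * gy y ξ) ^ 2 := pow_le_pow_left₀ h0 h1 2
        _ = 4 * C ^ 2 * gy y ξ * gy y ξ := by ring
        _ ≤ 4 * C ^ 2 * gy y ξ * y := mul_le_mul_of_nonneg_left (hg1 ξ) (by positivity)
        _ = 4 * C ^ 2 * gy y ξ * (Real.sqrt y * Real.sqrt y) := by
            rw [← sq, hsq]
        _ ≤ 4 * C ^ 2 * gy y ξ * (Real.sqrt y * 2) := by
            refine mul_le_mul_of_nonneg_left ?_ (by positivity)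
            exact mul_le_mul_of_nonneg_left hs2 hs0.le
        _ = 8 * C ^ 2 * Real.sqrt y * gy y ξ := by ring
    have h7 : 2 * ξ * ‖FF (F) ξ‖ * ‖deriv (FF (F)) ξ‖ ≤
        8 * C ^ 2 * Real.sqrt y * gy y ξ := by
      calc 2 * ξ * ‖FF (F) ξ‖ * ‖deriv (FF (F)) ξ‖ =
          2 * (‖FF (F) ξ‖ * (ξ * ‖deriv (FF (F)) ξ‖)) := by ring
        _ ≤ 2 * ((2 * C * gy y ξ) * (2 * C * Real.sqrt y)) := by
            refine mul_le_mul_of_nonneg_left ?_ (by norm_num)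
            exact mul_le_mul h1 h5 (by positivity) (by positivity)
        _ = 8 * C ^ 2 * Real.sqrt y * gy y ξ := by ring
    linarith
  · intro ξ hξ
    have h1 := b1 ξ hξ
    obtain ⟨-, -, -, -, h5⟩ := h ξ hξ
    have h0 : 0 ≤ ‖FF F ξ‖ := norm_nonneg _
    have hg := gy_pos hy ξ
    obtain ⟨P, hP⟩ : ∃ P : ℝ, P = ‖gg v y ξ‖ := ⟨_, rfl⟩
    have hP0 : 0 ≤ P := by
      rw [hP]
      exact norm_nonneg _
    have h6 : |‖FF F ξ‖ - P| ≤ C * y ^ 2 / (1 + ξ ^ 2) := by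
      refine le_trans ?_ h5
      rw [hP]
      exact abs_norm_sub_norm_le (FF F ξ) (gg v y ξ)
    have h8 : P ≤ 8 * |v| * gy y ξ := by
      have hy1 : 0 < y * ξ := mul_pos hy hξ
      have hexp := Real.quadratic_le_exp_of_nonneg hy1.le
      have h9 : Real.exp (-(y * ξ)) ≤ 2 / (1 + (y * ξ) ^ 2) := by
        rw [Real.exp_neg, inv_eq_one_div, div_le_div_iff₀ (Real.exp_pos _) (by positivity)]
        nlinarith
      have hpi : Real.pi ≤ 4 := Real.pi_le_four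
      have hpi0 := Real.pi_pos
      rw [hP]
      refine (gg_le v hy hξ).trans ?_
      unfold gy
      calc Real.pi * |v| * y * Real.exp (-(y * ξ)) ≤ 4 * |v| * y * (2 / (1 + (y * ξ) ^ 2)) := by
            refine mul_le_mul ?_ h9 (Real.exp_pos _).le (by positivity)
            refine mul_le_mul_of_nonneg_right ?_ hy.le
            exact mul_le_mul_of_nonneg_right hpi (abs_nonneg v)
        _ = 8 * |v| * (y / (1 + (y * ξ) ^ 2)) := by ring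
    rw [← hP]
    have e : ξ * ‖FF F ξ‖ ^ 2 - ξ * P ^ 2 =
        ξ * ((‖FF F ξ‖ - P) * (‖FF F ξ‖ + P)) := by ring
    rw [e, abs_mul, abs_mul, abs_of_pos hξ, abs_of_nonneg (add_nonneg h0 hP0)]
    have h10 : ξ / (1 + ξ ^ 2) ≤ 1 / 2 := by
      rw [div_le_div_iff₀ (by positivity) (by norm_num)]
      nlinarith [sq_nonneg (ξ - 1)]
    calc ξ * (|‖FF F ξ‖ - P| * (‖FF F ξ‖ + P))
        ≤ ξ * (C * y ^ 2 / (1 + ξ ^ 2) * (2 * C * gy y ξ + 8 * |v| * gy y ξ)) := by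
          refine mul_le_mul_of_nonneg_left ?_ hξ.le
          refine mul_le_mul h6 (add_le_add h1 h8) (add_nonneg h0 hP0) (by positivity)
      _ = (ξ / (1 + ξ ^ 2)) * (C * y ^ 2 * (2 * C * gy y ξ + 8 * |v| * gy y ξ)) := by ring
      _ ≤ (1 / 2) * (C * y ^ 2 * (2 * C * gy y ξ + 8 * |v| * gy y ξ)) :=
          mul_le_mul_of_nonneg_right h10 (by positivity)
      _ = C * (C + 4 * |v|) * y ^ 2 * gy y ξ := by ring

theorem va_le {F : ℝ → ℝ} {C v y : ℝ} (h : Bd F C v y) :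
    ∫ ξ in Ioi (0 : ℝ), ξ * ‖FF (F) ξ‖ ^ 2 ≤ 4 * C ^ 2 := by
  have hint := (gy_integrable h.y0).const_mul (2 * C ^ 2)
  have h1 : ∫ ξ in Ioi (0 : ℝ), ξ * ‖FF (F) ξ‖ ^ 2 ≤ ∫ ξ in Ioi (0 : ℝ), 2 * C ^ 2 * gy y ξ := by
    refine integral_mono_of_nonneg ?_ hint ?_
    · refine ae_restrict_of_forall_mem measurableSet_Ioi ?_
      intro ξ hξ
      exact mul_nonneg (le_of_lt hξ) (sq_nonneg _)
    · refine ae_restrict_of_forall_mem measurableSet_Ioi ?_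
      intro ξ hξ
      exact h.b2 ξ hξ
  rw [integral_const_mul, gy_integral h.y0] at h1
  nlinarith [Real.pi_le_four, sq_nonneg C]

theorem tv_le {F : ℝ → ℝ} {C v y : ℝ} (h : Bd F C v y) :
    ∫ ξ in Ioi (0 : ℝ), (‖FF (F) ξ‖ ^ 2 + 2 * ξ * ‖FF (F) ξ‖ * ‖deriv (FF (F)) ξ‖) ≤
      32 * C ^ 2 * Real.sqrt y := by
  have hint := (gy_integrable h.y0).const_mul (16 * C ^ 2 * Real.sqrt y)
  have h1 : ∫ ξ in Ioi (0 : ℝ),
      (‖FF (F) ξ‖ ^ 2 + 2 * ξ * ‖FF (F) ξ‖ * ‖deriv (FF (F)) ξ‖) ≤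
      ∫ ξ in Ioi (0 : ℝ), 16 * C ^ 2 * Real.sqrt y * gy y ξ := by
    refine integral_mono_of_nonneg ?_ hint ?_
    · refine ae_restrict_of_forall_mem measurableSet_Ioi ?_
      intro ξ hξ
      have hξ' : 0 < ξ := hξ
      show 0 ≤ ‖FF (F) ξ‖ ^ 2 + 2 * ξ * ‖FF (F) ξ‖ * ‖deriv (FF (F)) ξ‖
      positivity
    · refine ae_restrict_of_forall_mem measurableSet_Ioi ?_
      intro ξ hξ
      exact h.b3 ξ hξ
  rw [integral_const_mul, gy_integral h.y0] at h1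
  have h2 : 0 ≤ C ^ 2 * Real.sqrt y := by positivity
  nlinarith [Real.pi_le_four]

theorem sg_bd (hfr : S_FRU) {F : ℝ → ℝ} {C v y : ℝ} (h : Bd F C v y)
    (hc : ContinuousOn (FF F) (Ioi 0)) : |sg F - vv v| ≤ C * (C + 4 * |v|) * y ^ 2 := by
  have hy := h.y0
  have hC := h.C0
  have hg := gy_integrable h.y0
  obtain ⟨hI2, hmain⟩ := gg_int hfr v hy
  have hI1 : IntegrableOn (fun ξ : ℝ => ξ * ‖FF F ξ‖ ^ 2) (Ioi 0) := by
    refine Integrable.mono' (hg.const_mul (2 * C ^ 2)) ?_ ?_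
    · refine ContinuousOn.aestronglyMeasurable ?_ measurableSet_Ioi
      exact continuousOn_id.mul (hc.norm.pow 2)
    · refine ae_restrict_of_forall_mem measurableSet_Ioi ?_
      intro ξ hξ
      have hξ' : 0 < ξ := hξ
      rw [Real.norm_eq_abs, abs_of_nonneg (by positivity)]
      exact h.b2 ξ hξ
  have e1 : ∫ ξ in Ioi (0 : ℝ), (ξ * ‖FF F ξ‖ ^ 2 - ξ * ‖gg v y ξ‖ ^ 2) =
      (∫ ξ in Ioi (0 : ℝ), ξ * ‖FF F ξ‖ ^ 2) - Real.pi ^ 2 * Real.log (1 + v ^ 2 / 4) := by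
    rw [integral_sub hI1 hI2, hmain]
  have e2 : |∫ ξ in Ioi (0 : ℝ), (ξ * ‖FF F ξ‖ ^ 2 - ξ * ‖gg v y ξ‖ ^ 2)| ≤
      C * (C + 4 * |v|) * y ^ 2 * (Real.pi / 2) := by
    rw [← gy_integral hy, ← integral_const_mul, ← Real.norm_eq_abs]
    refine norm_integral_le_of_norm_le (hg.const_mul _) ?_
    refine ae_restrict_of_forall_mem measurableSet_Ioi ?_
    intro ξ hξ
    rw [Real.norm_eq_abs]
    exact h.b4 ξ hξ
  rw [e1] at e2
  have e3 : sg F - vv v = 1 / (2 * Real.pi ^ 2) *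
      ((∫ ξ in Ioi (0 : ℝ), ξ * ‖FF F ξ‖ ^ 2) - Real.pi ^ 2 * Real.log (1 + v ^ 2 / 4)) := by
    unfold sg vv
    have := Real.pi_pos
    field_simp
  have hpi := Real.pi_gt_three
  rw [e3, abs_mul, abs_of_pos (by positivity)]
  have hK : 0 ≤ C * (C + 4 * |v|) * y ^ 2 := by positivity
  calc 1 / (2 * Real.pi ^ 2) * |(∫ ξ in Ioi (0 : ℝ), ξ * ‖FF F ξ‖ ^ 2) -
        Real.pi ^ 2 * Real.log (1 + v ^ 2 / 4)|
      ≤ 1 / (2 * Real.pi ^ 2) * (C * (C + 4 * |v|) * y ^ 2 * (Real.pi / 2)) :=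
        mul_le_mul_of_nonneg_left e2 (by positivity)
    _ = C * (C + 4 * |v|) * y ^ 2 * (1 / (4 * Real.pi)) := by
        field_simp
        ring
    _ ≤ C * (C + 4 * |v|) * y ^ 2 * 1 := by
        refine mul_le_mul_of_nonneg_left ?_ hK
        rw [div_le_one (by positivity)]
        linarith
    _ = C * (C + 4 * |v|) * y ^ 2 := mul_one _

/-! ### scaling -/

theorem FF_smul (u : ℝ) (F : ℝ → ℝ) : FF (fun x => u * F x) = fun ξ => (u : ℂ) * FF F ξ := by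
  funext ξ
  unfold FF
  rw [← integral_const_mul]
  refine integral_congr_ae (Filter.Eventually.of_forall fun s => ?_)
  simp only
  push_cast
  ring

theorem deriv_FF_smul (u : ℝ) (F : ℝ → ℝ) (ξ : ℝ) :
    deriv (FF (fun x => u * F x)) ξ = (u : ℂ) * deriv (FF F) ξ := by
  rw [FF_smul]
  exact deriv_const_mul_field _

theorem norm_FF_smul (u : ℝ) (F : ℝ → ℝ) (ξ : ℝ) :
    ‖FF (fun x => u * F x) ξ‖ = |u| * ‖FF F ξ‖ := by
  rw [FF_smul, norm_mul, Complex.norm_real, Real.norm_eq_abs]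

theorem norm_deriv_FF_smul (u : ℝ) (F : ℝ → ℝ) (ξ : ℝ) :
    ‖deriv (FF (fun x => u * F x)) ξ‖ = |u| * ‖deriv (FF F) ξ‖ := by
  rw [deriv_FF_smul, norm_mul, Complex.norm_real, Real.norm_eq_abs]

theorem va_smul (u : ℝ) (F : ℝ → ℝ) :
    ∫ ξ in Ioi (0 : ℝ), ξ * ‖FF (fun x => u * F x) ξ‖ ^ 2 =
      u ^ 2 * ∫ ξ in Ioi (0 : ℝ), ξ * ‖FF F ξ‖ ^ 2 := by
  rw [← integral_const_mul]
  refine integral_congr_ae (Filter.Eventually.of_forall fun ξ => ?_)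
  simp only
  rw [norm_FF_smul, mul_pow, sq_abs]
  ring

theorem tv_smul (u : ℝ) (F : ℝ → ℝ) :
    ∫ ξ in Ioi (0 : ℝ), (‖FF (fun x => u * F x) ξ‖ ^ 2 +
      2 * ξ * ‖FF (fun x => u * F x) ξ‖ * ‖deriv (FF (fun x => u * F x)) ξ‖) =
      u ^ 2 * ∫ ξ in Ioi (0 : ℝ), (‖FF F ξ‖ ^ 2 + 2 * ξ * ‖FF F ξ‖ * ‖deriv (FF F) ξ‖) := by
  rw [← integral_const_mul]
  refine integral_congr_ae (Filter.Eventually.of_forall fun ξ => ?_)
  simp only
  rw [norm_FF_smul, norm_deriv_FF_smul, mul_pow, sq_abs]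
  have : |u| * |u| = u ^ 2 := by rw [← sq, sq_abs]
  linear_combination (2 * ξ * ‖FF F ξ‖ * ‖deriv (FF F) ξ‖) * this

theorem sg_smul (u : ℝ) (F : ℝ → ℝ) : sg (fun x => u * F x) = u ^ 2 * sg F := by
  unfold sg
  rw [va_smul]
  ring

theorem deriv2_smul (u : ℝ) (F : ℝ → ℝ) :
    deriv (deriv (fun x => u * F x)) = fun x => u * deriv (deriv F) x := by
  have h1 : deriv (fun x => u * F x) = fun x => u * deriv F x := by
    funext x
    exact deriv_const_mul_field _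
  rw [h1]
  funext x
  exact deriv_const_mul_field _

theorem C2c_smul (u : ℝ) {F : ℝ → ℝ} (h : C2c F) : C2c (fun x => u * F x) :=
  ⟨contDiff_const.mul h.cd, fun x hx => by simp only [h.supp x hx, mul_zero]⟩

theorem adm_smul {F : ℝ → ℝ} {C v y : ℝ} (h : Bd F C v y) (h2c : C2c F) (hl1 : ∫ x : ℝ, |F x| ≤ C * y)
    (hl2 : ∫ x : ℝ, |deriv (deriv (F)) x| ≤ C / y) (u η V L : ℝ)
    (c1 : |u| * (C * y) ≤ η) (c2 : |u| * (C / y) ≤ η * L) (c3 : u ^ 2 * (4 * C ^ 2) ≤ V)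
    (c4 : u ^ 2 * (32 * C ^ 2 * Real.sqrt y) ≤ η) : Adm η V L (fun x => u * F x) := by
  refine ⟨C2c_smul u h2c, ?_, ?_, ?_, ?_⟩
  · have e : ∫ x : ℝ, |u * F x| = |u| * ∫ x : ℝ, |F x| := by
      rw [← integral_const_mul]
      refine integral_congr_ae (Filter.Eventually.of_forall fun x => ?_)
      exact abs_mul _ _
    rw [e]
    exact (mul_le_mul_of_nonneg_left hl1 (abs_nonneg _)).trans c1
  · have e : ∫ x : ℝ, |deriv (deriv (fun x => u * F x)) x| =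
        |u| * ∫ x : ℝ, |deriv (deriv (F)) x| := by
      rw [← integral_const_mul, deriv2_smul]
      refine integral_congr_ae (Filter.Eventually.of_forall fun x => ?_)
      exact abs_mul _ _
    rw [e]
    exact (mul_le_mul_of_nonneg_left hl2 (abs_nonneg _)).trans c2
  · rw [va_smul]
    exact (mul_le_mul_of_nonneg_left (va_le h) (sq_nonneg _)).trans c3
  · rw [tv_smul]
    exact (mul_le_mul_of_nonneg_left (tv_le h) (sq_nonneg _)).trans c4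

end

theorem gad_proof : S_GKB → S_FRU → S_GAD := by
  intro hG hfr v hv u
  obtain ⟨C, hC, hKB⟩ := hG v
  refine ⟨u ^ 2 * (4 * C ^ 2) + 1, by positivity, ?_⟩
  intro η hη
  have hv0 : 0 < |v| := abs_pos.2 hv
  obtain ⟨M, hM⟩ : ∃ M : ℝ, M = 1 + |u| * C + u ^ 2 * (32 * C ^ 2) +
    u ^ 2 * (C * (C + 4 * |v|)) := ⟨_, rfl⟩
  have hM1 : 0 ≤ |u| * C := by positivity
  have hM2 : 0 ≤ u ^ 2 * (32 * C ^ 2) := by positivity
  have hM3 : 0 ≤ u ^ 2 * (C * (C + 4 * |v|)) := by positivity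
  have hM0 : 0 < M := by rw [hM]; linarith
  obtain ⟨s, hs⟩ : ∃ s : ℝ, s = min 1 (η / M) := ⟨_, rfl⟩
  have hs0 : 0 < s := by
    rw [hs]
    exact lt_min one_pos (div_pos hη hM0)
  have hs1 : s ≤ 1 := by rw [hs]; exact min_le_left _ _
  have hsM : s * M ≤ η := by
    rw [← le_div_iff₀ hM0, hs]
    exact min_le_right _ _
  refine ⟨min (s ^ 2) (1 / (2 * |v|)), 1 + |u| * C / η, lt_min (by positivity) (by positivity), by
    have : 0 ≤ |u| * C / η := by positivity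
    linarith, ?_⟩
  intro y L hy hyδ' hK
  have hyδ : y ≤ s ^ 2 := hyδ'.trans (min_le_left _ _)
  have hyv : |v| * y ≤ 1 / 2 := by
    have h1 : y ≤ 1 / (2 * |v|) := hyδ'.trans (min_le_right _ _)
    rw [le_div_iff₀ (by positivity)] at h1
    linarith
  have hys : y ≤ s := by nlinarith
  have hy1 : y ≤ 1 := hys.trans hs1
  have hsq : Real.sqrt y ≤ s := by
    rw [Real.sqrt_le_left hs0.le]
    exact hyδ
  have hsq0 := Real.sqrt_nonneg y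
  obtain ⟨h2c, hl1, hl2, hcont, _, hb⟩ := hKB y hy hy1 hyv
  have hbd : Bd (Gv v y) C v y := bd_of hC hy (by linarith) hb
  constructor
  · refine adm_smul hbd h2c hl1 hl2 u η _ L ?_ ?_ ?_ ?_
    · have h1 : |u| * (C * y) ≤ |u| * C * s := by
        rw [← mul_assoc]
        exact mul_le_mul_of_nonneg_left hys hM1
      have h2 : |u| * C * s ≤ s * M := by
        rw [mul_comm s M]
        exact mul_le_mul_of_nonneg_right (by rw [hM]; linarith) hs0.le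
      linarith
    · have h1 : |u| * C ≤ η * (y * L) := by
        have h2 : |u| * C / η ≤ y * L := by linarith
        rw [div_le_iff₀ hη] at h2
        linarith
      have e : |u| * (C / y) = |u| * C / y := by ring
      rw [e, div_le_iff₀ hy]
      linarith
    · linarith
    · have h1 : u ^ 2 * (32 * C ^ 2 * Real.sqrt y) ≤ u ^ 2 * (32 * C ^ 2) * s := by
        rw [← mul_assoc]
        exact mul_le_mul_of_nonneg_left hsq hM2
      have h2 : u ^ 2 * (32 * C ^ 2) * s ≤ s * M := by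
        rw [mul_comm s M]
        exact mul_le_mul_of_nonneg_right (by rw [hM]; linarith) hs0.le
      linarith
  · rw [sg_smul]
    have e : u ^ 2 * sg (Gv v y) - u ^ 2 * vv v = u ^ 2 * (sg (Gv v y) - vv v) := by ring
    rw [e, abs_mul, abs_of_nonneg (sq_nonneg u)]
    have h1 := sg_bd hfr hbd hcont
    have h2 : u ^ 2 * |sg (Gv v y) - vv v| ≤ u ^ 2 * (C * (C + 4 * |v|) * y ^ 2) :=
      mul_le_mul_of_nonneg_left h1 (sq_nonneg _)
    have h3 : u ^ 2 * (C * (C + 4 * |v|) * y ^ 2) ≤ u ^ 2 * (C * (C + 4 * |v|)) * s := by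
      rw [← mul_assoc]
      refine mul_le_mul_of_nonneg_left ?_ hM3
      nlinarith
    have h4 : u ^ 2 * (C * (C + 4 * |v|)) * s ≤ s * M := by
      rw [mul_comm s M]
      exact mul_le_mul_of_nonneg_right (by rw [hM]; linarith) hs0.le
    linarith

end Pool.Agent.H224.GP.GAD
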